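import Mathlib

/-!
# The digamma remainder `G = L(·, a₁) - ψ(· + 1)` is not completely monotonic

If `G` were completely monotonic then `G⁗(1/2) ≤ 24 G(-1/2)` by Taylor's formula, and the
functional equation `G(x) = G(x+1) + L(x) - L(x+1) + 1/(x+1)` would give a negative value for
`G⁗(-1/2)`.
-/

open Filter Topology Set
open scoped ContDiff

namespace Pool.Agent.Results.MP_d2a7e5_an.NotCompletelyMonotone

/-- The (real) digamma function `ψ = Γ'/Γ`. -/
noncomputable def psi (x : ℝ) : ℝ := deriv Real.Gamma x / Real.Gamma x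

/-- The approximation `L(x, a)`. -/
noncomputable def LL (x a : ℝ) : ℝ :=
  1 / (90 * a ^ 2 + 2) * Real.log (x ^ 2 + x + (3 * a + 1) / 3)
    + 45 * a ^ 2 / (90 * a ^ 2 + 2) * Real.log (x ^ 2 + x + (15 * a - 1) / (45 * a))

/-- The constant `a₁`. -/
noncomputable def a1 : ℝ := (40 + 3 * Real.sqrt 205) / 105

/-- The function `G`. -/
noncomputable def G (x : ℝ) : ℝ := LL x a1 - psi (x + 1)

/-! ### Derivative chains -/

lemma iteratedDeriv_chain {U : Set ℝ} (hU : IsOpen U) (f : ℕ → ℝ → ℝ) (n : ℕ)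
    (h : ∀ k, k < n → ∀ x ∈ U, HasDerivAt (f k) (f (k + 1) x) x) :
    ∀ x ∈ U, iteratedDeriv n (f 0) x = f n x := by
  induction n with
  | zero => intro x _; simp
  | succ n ih =>
    intro x hx
    rw [iteratedDeriv_succ]
    have h1 : iteratedDeriv n (f 0) =ᶠ[𝓝 x] f n := by
      filter_upwards [hU.mem_nhds hx] with y hy
      exact ih (fun k hk => h k (by omega)) y hy
    rw [h1.deriv_eq]
    exact (h n (Nat.lt_succ_self n) x hx).deriv

lemma contDiffAt_Gamma {x : ℝ} (hx : 0 < x) : ContDiffAt ℝ ∞ Real.Gamma x := by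
  have h1 : ContDiffAt ℂ ∞ Complex.Gamma (x : ℂ) := by
    have hopen : IsOpen {z : ℂ | 0 < z.re} := isOpen_lt continuous_const Complex.continuous_re
    have hd : DifferentiableOn ℂ Complex.Gamma {z : ℂ | 0 < z.re} := by
      intro z hz
      apply (Complex.differentiableAt_Gamma z _).differentiableWithinAt
      intro m hm
      have : (0 : ℝ) < z.re := hz
      rw [hm] at this
      simp at this
      have h2 : (0 : ℝ) ≤ m := Nat.cast_nonneg m
      linarith
    exact (hd.analyticAt (hopen.mem_nhds (by simpa using hx))).contDiffAt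
  exact h1.real_of_complex

lemma contDiffOn_Gamma : ContDiffOn ℝ ∞ Real.Gamma (Ioi 0) := fun _ hx =>
  (contDiffAt_Gamma hx).contDiffWithinAt

lemma contDiffOn_psi : ContDiffOn ℝ ∞ psi (Ioi 0) := by
  unfold psi
  apply ContDiffOn.div
  · exact ((contDiffOn_infty_iff_deriv_of_isOpen isOpen_Ioi).1 contDiffOn_Gamma).2
  · exact contDiffOn_Gamma
  · intro x hx; exact (Real.Gamma_pos_of_pos hx).ne'

lemma psi_add_one {x : ℝ} (hx : 0 < x) : psi (x + 1) = psi x + 1 / x := by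
  unfold psi
  have h1 : (fun y => Real.Gamma (y + 1)) =ᶠ[𝓝 x] fun y => y * Real.Gamma y := by
    filter_upwards [isOpen_ne.mem_nhds hx.ne'] with y hy
    exact Real.Gamma_add_one hy
  have h2 := h1.deriv_eq
  rw [deriv_comp_add_const] at h2
  have hd : DifferentiableAt ℝ Real.Gamma x := (contDiffAt_Gamma hx).differentiableAt (by simp)
  have h3 : deriv (fun y => y * Real.Gamma y) x = Real.Gamma x + x * deriv Real.Gamma x := by
    have := ((hasDerivAt_id' x).fun_mul hd.hasDerivAt).deriv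
    rw [this, one_mul]
  rw [h2, h3, Real.Gamma_add_one hx.ne']
  have := (Real.Gamma_pos_of_pos hx).ne'
  field_simp
  ring

/-! ### The logarithmic terms -/

/-- The chain of derivatives of `log (x^2 + x + c)`. -/
noncomputable def ec (c : ℝ) : ℕ → ℝ → ℝ
  | 0 => fun x => Real.log (x ^ 2 + x + c)
  | 1 => fun x => (2 * x + 1) / (x ^ 2 + x + c)
  | 2 => fun x => 2 / (x ^ 2 + x + c) - (2 * x + 1) ^ 2 / (x ^ 2 + x + c) ^ 2
  | 3 => fun x => -6 * (2 * x + 1) / (x ^ 2 + x + c) ^ 2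
      + 2 * (2 * x + 1) ^ 3 / (x ^ 2 + x + c) ^ 3
  | _ => fun x => -12 / (x ^ 2 + x + c) ^ 2 + 24 * (2 * x + 1) ^ 2 / (x ^ 2 + x + c) ^ 3
      - 6 * (2 * x + 1) ^ 4 / (x ^ 2 + x + c) ^ 4

lemma quad_pos {c : ℝ} (hc : 1 / 4 < c) (x : ℝ) : 0 < x ^ 2 + x + c := by
  nlinarith [sq_nonneg (x + 1 / 2)]

lemma ec_deriv {c : ℝ} (hc : 1 / 4 < c) (k : ℕ) (hk : k < 4) (x : ℝ) :
    HasDerivAt (ec c k) (ec c (k + 1) x) x := by
  have hq := (quad_pos hc x).ne'
  have h1 : HasDerivAt (fun x : ℝ => x ^ 2 + x + c) (2 * x + 1) x := by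
    have := ((hasDerivAt_pow 2 x).add (hasDerivAt_id x)).add_const c
    simpa using this
  have h2 : HasDerivAt (fun x : ℝ => 2 * x + 1) 2 x := by
    have := ((hasDerivAt_id x).const_mul 2).add_const 1
    simpa using this
  interval_cases k
  · exact h1.log hq
  · refine (h2.div h1 hq).congr_deriv ?_
    simp only [ec]
    field_simp
  · have h3 := ((hasDerivAt_const x (2 : ℝ)).div h1 hq).sub
      ((h2.pow 2).div (h1.pow 2) (pow_ne_zero 2 hq))
    refine h3.congr_deriv ?_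
    simp only [ec, Pi.pow_apply]
    clear h3 h1 h2
    generalize x ^ 2 + x + c = q at hq ⊢
    generalize 2 * x + 1 = p
    field_simp
    push_cast
    ring
  · have h3 := ((h2.const_mul (-6)).div (h1.pow 2) (pow_ne_zero 2 hq)).add
      (((h2.pow 3).const_mul 2).div (h1.pow 3) (pow_ne_zero 3 hq))
    refine h3.congr_deriv ?_
    simp only [ec, Pi.pow_apply]
    clear h3 h1 h2
    generalize x ^ 2 + x + c = q at hq ⊢
    generalize 2 * x + 1 = p
    field_simp
    push_cast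
    ring

/-- The chain of derivatives of `1 / (x + 1)`. -/
noncomputable def rc (k : ℕ) (x : ℝ) : ℝ := (-1) ^ k * (k.factorial : ℝ) / (x + 1) ^ (k + 1)

lemma rc_deriv (k : ℕ) (x : ℝ) (hx : -1 < x) : HasDerivAt (rc k) (rc (k + 1) x) x := by
  have h0 : x + 1 ≠ 0 := by linarith
  have h1 : HasDerivAt (fun x : ℝ => x + 1) 1 x := (hasDerivAt_id x).add_const 1
  have h2 := (hasDerivAt_const x ((-1 : ℝ) ^ k * (k.factorial : ℝ))).div (h1.pow (k + 1))
    (pow_ne_zero _ h0)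
  refine h2.congr_deriv ?_
  unfold rc
  rw [Nat.factorial_succ]
  push_cast
  simp only [Pi.pow_apply]
  field_simp
  ring

/-- The chain of derivatives of `x ↦ L(x) - L(x+1) + 1/(x+1)`. -/
noncomputable def kc (A B c1 c2 : ℝ) (k : ℕ) (x : ℝ) : ℝ :=
  A * (ec c1 k x - ec c1 k (x + 1)) + B * (ec c2 k x - ec c2 k (x + 1)) + rc k x

lemma kc_deriv {A B c1 c2 : ℝ} (hc1 : 1 / 4 < c1) (hc2 : 1 / 4 < c2) (k : ℕ) (hk : k < 4)
    (x : ℝ) (hx : -1 < x) : HasDerivAt (kc A B c1 c2 k) (kc A B c1 c2 (k + 1) x) x := by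
  unfold kc
  have s1 : HasDerivAt (fun x => ec c1 k (x + 1)) (ec c1 (k + 1) (x + 1)) x :=
    (ec_deriv hc1 k hk (x + 1)).comp_add_const x 1
  have s2 : HasDerivAt (fun x => ec c2 k (x + 1)) (ec c2 (k + 1) (x + 1)) x :=
    (ec_deriv hc2 k hk (x + 1)).comp_add_const x 1
  exact ((((ec_deriv hc1 k hk x).sub s1).const_mul A).add
    (((ec_deriv hc2 k hk x).sub s2).const_mul B)).add (rc_deriv k x hx)

/-! ### Numerical facts about `a₁` -/

lemma a1_bounds : 79 / 100 < a1 ∧ a1 < 791 / 1000 := by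
  have h1 : (143 / 10 : ℝ) < Real.sqrt 205 := by
    rw [Real.lt_sqrt (by norm_num)]; norm_num
  have h1' : (14317 / 1000 : ℝ) < Real.sqrt 205 := by
    rw [Real.lt_sqrt (by norm_num)]; norm_num
  have h2 : Real.sqrt 205 < 14318 / 1000 := by
    rw [Real.sqrt_lt' (by norm_num)]; norm_num
  unfold a1
  constructor
  · rw [lt_div_iff₀ (by norm_num)]; linarith
  · rw [div_lt_iff₀ (by norm_num)]; linarith

/-- the first weight -/
noncomputable def AA : ℝ := 1 / (90 * a1 ^ 2 + 2)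
/-- the second weight -/
noncomputable def BB : ℝ := 45 * a1 ^ 2 / (90 * a1 ^ 2 + 2)
/-- the first constant -/
noncomputable def C1 : ℝ := (3 * a1 + 1) / 3
/-- the second constant -/
noncomputable def C2 : ℝ := (15 * a1 - 1) / (45 * a1)

lemma C1_bounds : 1 < C1 ∧ C1 < 12 / 10 := by
  obtain ⟨h1, h2⟩ := a1_bounds
  unfold C1
  constructor
  · rw [lt_div_iff₀ (by norm_num)]; linarith
  · rw [div_lt_iff₀ (by norm_num)]; linarith

lemma C2_bounds : 305 / 1000 < C2 ∧ C2 < 3053 / 10000 := by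
  obtain ⟨h1, h2⟩ := a1_bounds
  have h0 : 0 < a1 := by linarith
  unfold C2
  constructor
  · rw [lt_div_iff₀ (by positivity)]; linarith
  · rw [div_lt_iff₀ (by positivity)]; linarith

lemma AA_bounds : 0 < AA ∧ AA < 1 / 50 := by
  obtain ⟨h1, h2⟩ := a1_bounds
  have h3 : 48 < 90 * a1 ^ 2 := by nlinarith
  unfold AA
  constructor
  · positivity
  · rw [div_lt_div_iff₀ (by positivity) (by norm_num)]; linarith

lemma BB_bounds : 48 / 100 < BB ∧ BB < 1 / 2 := by
  obtain ⟨h1, h2⟩ := a1_bounds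
  have h3 : 56 < 90 * a1 ^ 2 := by nlinarith
  unfold BB
  constructor
  · rw [lt_div_iff₀ (by positivity)]; nlinarith
  · rw [div_lt_iff₀ (by positivity)]; nlinarith

lemma G_eq (x : ℝ) : G x = AA * ec C1 0 x + BB * ec C2 0 x - psi (x + 1) := rfl

lemma func_eq {x : ℝ} (hx : -1 < x) : G x = G (x + 1) + kc AA BB C1 C2 0 x := by
  rw [G_eq, G_eq, psi_add_one (x := x + 1) (by linarith)]
  unfold kc rc
  simp
  ring

lemma contDiffOn_G : ContDiffOn ℝ ∞ G (Ioi (-1)) := by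
  have h1 : ContDiffOn ℝ ∞ (fun x : ℝ => psi (x + 1)) (Ioi (-1)) := by
    apply contDiffOn_psi.comp (by fun_prop : ContDiff ℝ ∞ fun x : ℝ => x + 1).contDiffOn
    intro x hx
    have : -1 < x := hx
    show 0 < x + 1
    linarith
  have h2 : ∀ c : ℝ, 1 / 4 < c → ContDiff ℝ ∞ (fun x : ℝ => Real.log (x ^ 2 + x + c)) := by
    intro c hc
    apply ContDiff.log (by fun_prop)
    intro x; exact (quad_pos hc x).ne'
  have h3 : G = fun x => AA * Real.log (x ^ 2 + x + C1) + BB * Real.log (x ^ 2 + x + C2)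
      - psi (x + 1) := by
    funext x; exact G_eq x
  rw [h3]
  exact ((contDiff_const.mul (h2 C1 (by linarith [C1_bounds.1]))).contDiffOn.add
    (contDiff_const.mul (h2 C2 (by linarith [C2_bounds.1]))).contDiffOn).sub h1

lemma contDiffOn_iter (k : ℕ) : ContDiffOn ℝ ∞ (iteratedDeriv k G) (Ioi (-1)) := by
  induction k with
  | zero => rw [iteratedDeriv_zero]; exact contDiffOn_G
  | succ k ih =>
    rw [iteratedDeriv_succ]
    exact ((contDiffOn_infty_iff_deriv_of_isOpen isOpen_Ioi).1 ih).2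

lemma G_hasDerivAt (k : ℕ) {x : ℝ} (hx : -1 < x) :
    HasDerivAt (iteratedDeriv k G) (iteratedDeriv (k + 1) G x) x := by
  have h1 : DifferentiableAt ℝ (iteratedDeriv k G) x :=
    ((contDiffOn_infty_iff_deriv_of_isOpen isOpen_Ioi).1 (contDiffOn_iter k)).1.differentiableAt
      (Ioi_mem_nhds hx)
  rw [iteratedDeriv_succ]
  exact h1.hasDerivAt

/-! ### The Taylor bound -/

/-- One integration step. -/
lemma step {f g : ℝ → ℝ} {c : ℝ} {n : ℕ} (hf : ∀ x ∈ Icc (-1 / 2 : ℝ) (1 / 2), HasDerivAt f (-g x) x)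
    (hg : ∀ x ∈ Icc (-1 / 2 : ℝ) (1 / 2), c * (1 / 2 - x) ^ n ≤ g x) (h0 : 0 ≤ f (1 / 2)) :
    ∀ x ∈ Icc (-1 / 2 : ℝ) (1 / 2), c / (n + 1) * (1 / 2 - x) ^ (n + 1) ≤ f x := by
  intro x hx
  set F : ℝ → ℝ := fun x => f x - c / (n + 1) * (1 / 2 - x) ^ (n + 1) with hF
  have hder : ∀ y ∈ Icc (-1 / 2 : ℝ) (1 / 2), HasDerivAt F (-g y + c * (1 / 2 - y) ^ n) y := by
    intro y hy
    have h1 : HasDerivAt (fun y : ℝ => 1 / 2 - y) (-1) y :=
      (hasDerivAt_id' y).const_sub (1 / 2)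
    have h2 := (hf y hy).sub ((h1.pow (n + 1)).const_mul (c / (n + 1)))
    refine h2.congr_deriv ?_
    simp only [Nat.add_sub_cancel]
    push_cast
    field_simp
    ring
  have hanti : AntitoneOn F (Icc (-1 / 2) (1 / 2)) := by
    apply antitoneOn_of_deriv_nonpos (convex_Icc _ _)
    · exact fun y hy => (hder y hy).continuousAt.continuousWithinAt
    · intro y hy
      rw [interior_Icc] at hy
      exact (hder y (Ioo_subset_Icc_self hy)).differentiableAt.differentiableWithinAt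
    · intro y hy
      rw [interior_Icc] at hy
      rw [(hder y (Ioo_subset_Icc_self hy)).deriv]
      have := hg y (Ioo_subset_Icc_self hy)
      linarith
  have h1 := hanti hx (right_mem_Icc.mpr (by norm_num)) hx.2
  have h2 : F (1 / 2) = f (1 / 2) := by rw [hF]; simp
  rw [h2] at h1
  have h3 : F x = f x - c / (n + 1) * (1 / 2 - x) ^ (n + 1) := rfl
  rw [h3] at h1
  linarith

lemma psi_half : psi (1 / 2) = -(Real.eulerMascheroniConstant + 2 * Real.log 2) := by
  unfold psi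
  rw [Real.hasDerivAt_Gamma_one_half.deriv, Real.Gamma_one_half_eq]
  have : Real.sqrt Real.pi ≠ 0 := (Real.sqrt_pos.mpr Real.pi_pos).ne'
  field_simp

lemma G_value : G (-1 / 2) ≤ 3 := by
  rw [G_eq]
  have h1 : ec C1 0 (-1 / 2) ≤ 0 := by
    simp only [ec]
    apply Real.log_nonpos
    · nlinarith [C1_bounds.1]
    · nlinarith [C1_bounds.2]
  have h2 : ec C2 0 (-1 / 2) ≤ 0 := by
    simp only [ec]
    apply Real.log_nonpos
    · nlinarith [C2_bounds.1]
    · nlinarith [C2_bounds.2]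
  have h3 : (-1 / 2 : ℝ) + 1 = 1 / 2 := by norm_num
  rw [h3, psi_half]
  have h4 := AA_bounds.1
  have h5 := BB_bounds.1
  have h6 := Real.eulerMascheroniConstant_lt_two_thirds
  have h7 := Real.log_two_lt_d9
  nlinarith

lemma kc_value : kc AA BB C1 C2 4 (-1 / 2) < -72 := by
  obtain ⟨c1l, c1u⟩ := C1_bounds
  obtain ⟨c2l, c2u⟩ := C2_bounds
  obtain ⟨al, au⟩ := AA_bounds
  obtain ⟨bl, bu⟩ := BB_bounds
  unfold kc
  have e1 : ∀ c, ec c 4 (-1 / 2) = -12 / (c - 1 / 4) ^ 2 := by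
    intro c
    simp only [ec]
    have : ((-1 / 2 : ℝ)) ^ 2 + -1 / 2 + c = c - 1 / 4 := by ring
    rw [this]
    norm_num
  have e2 : ∀ c, ec c 4 (-1 / 2 + 1) = -12 / (c + 3 / 4) ^ 2 + 96 / (c + 3 / 4) ^ 3
      - 96 / (c + 3 / 4) ^ 4 := by
    intro c
    simp only [ec]
    have : ((-1 / 2 : ℝ) + 1) ^ 2 + (-1 / 2 + 1) + c = c + 3 / 4 := by ring
    rw [this]
    norm_num
  have e3 : rc 4 (-1 / 2) = 768 := by
    unfold rc; norm_num [Nat.factorial]
  rw [e1, e2, e1, e2, e3]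
  -- crude bounds
  have b1 : -12 / (C1 - 1 / 4) ^ 2 ≤ 0 := by
    apply div_nonpos_of_nonpos_of_nonneg (by norm_num) (by positivity)
  have b2 : -12 / (C2 - 1 / 4) ^ 2 ≤ -3900 := by
    have : 0 < C2 - 1 / 4 := by linarith
    rw [div_le_iff₀ (by positivity)]
    nlinarith
  have b3 : ∀ c : ℝ, 1 / 4 < c → -108 ≤ -12 / (c + 3 / 4) ^ 2 + 96 / (c + 3 / 4) ^ 3
      - 96 / (c + 3 / 4) ^ 4 := by
    intro c hc
    have h1 : 1 ≤ c + 3 / 4 := by linarith
    have h2 : 12 / (c + 3 / 4) ^ 2 ≤ 12 := by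
      rw [div_le_iff₀ (by positivity)]
      have := one_le_pow₀ h1 (n := 2); linarith
    have h3 : 0 ≤ 96 / (c + 3 / 4) ^ 3 := by positivity
    have h4 : 96 / (c + 3 / 4) ^ 4 ≤ 96 := by
      rw [div_le_iff₀ (by positivity)]
      have := one_le_pow₀ h1 (n := 4); linarith
    have h5 : -12 / (c + 3 / 4) ^ 2 = -(12 / (c + 3 / 4) ^ 2) := by ring
    rw [h5]; linarith
  have b4 := b3 C1 (by linarith)
  have b5 := b3 C2 (by linarith)
  generalize -12 / (C1 + 3 / 4) ^ 2 + 96 / (C1 + 3 / 4) ^ 3 - 96 / (C1 + 3 / 4) ^ 4 = u1 at *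
  generalize -12 / (C2 + 3 / 4) ^ 2 + 96 / (C2 + 3 / 4) ^ 3 - 96 / (C2 + 3 / 4) ^ 4 = u2 at *
  generalize -12 / (C1 - 1 / 4) ^ 2 = v1 at *
  generalize -12 / (C2 - 1 / 4) ^ 2 = v2 at *
  have m1 : AA * (v1 - u1) ≤ 1 / 50 * 108 := by
    calc AA * (v1 - u1) ≤ AA * 108 := by gcongr; linarith
      _ ≤ 1 / 50 * 108 := by gcongr
  have m2 : BB * (v2 - u2) ≤ 48 / 100 * (-3792) := by
    calc BB * (v2 - u2) ≤ BB * (-3792) := by gcongr; linarith
      _ ≤ 48 / 100 * (-3792) := by nlinarith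
  linarith

/-- **Negative answer to Q1**: `G = L(·, a₁) - ψ(· + 1)` is not completely monotonic on
`(-1, ∞)`: `(-1)^n G^{(n)}(x) < 0` for some `n ≥ 0` and some `x > -1`. -/
theorem result : ∃ (n : ℕ) (x : ℝ), -1 < x ∧ (-1 : ℝ) ^ n * iteratedDeriv n G x < 0 := by
  by_contra hcon
  push Not at hcon
  have hmem : ∀ x ∈ Icc (-1 / 2 : ℝ) (1 / 2), -1 < x := fun x hx => by linarith [hx.1]
  have hhalf : (1 / 2 : ℝ) ∈ Icc (-1 / 2 : ℝ) (1 / 2) := ⟨by norm_num, le_rfl⟩
  set g : ℕ → ℝ → ℝ := fun k x => (-1 : ℝ) ^ k * iteratedDeriv k G x with hg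
  have hgnn : ∀ k x, -1 < x → 0 ≤ g k x := fun k x hx => hcon k x hx
  have hgd : ∀ k x, -1 < x → HasDerivAt (g k) (-(g (k + 1) x)) x := by
    intro k x hx
    have := (G_hasDerivAt k hx).const_mul ((-1 : ℝ) ^ k)
    refine this.congr_deriv ?_
    rw [hg]; simp only; rw [pow_succ]; ring
  set c : ℝ := g 4 (1 / 2) with hc
  have s4 : ∀ x ∈ Icc (-1 / 2 : ℝ) (1 / 2), c * (1 / 2 - x) ^ 0 ≤ g 4 x := by
    intro x hx
    have hanti : AntitoneOn (g 4) (Icc (-1 / 2) (1 / 2)) := by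
      apply antitoneOn_of_deriv_nonpos (convex_Icc _ _)
      · exact fun y hy => (hgd 4 y (hmem y hy)).continuousAt.continuousWithinAt
      · intro y hy
        rw [interior_Icc] at hy
        exact (hgd 4 y (hmem y (Ioo_subset_Icc_self hy))).differentiableAt.differentiableWithinAt
      · intro y hy
        rw [interior_Icc] at hy
        rw [(hgd 4 y (hmem y (Ioo_subset_Icc_self hy))).deriv]
        have := hgnn (4 + 1) y (hmem y (Ioo_subset_Icc_self hy))
        linarith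
    rw [pow_zero, mul_one]
    exact hanti hx hhalf hx.2
  have s3 := step (fun y hy => hgd 3 y (hmem y hy)) s4 (hgnn 3 _ (by norm_num))
  have s2 := step (fun y hy => hgd 2 y (hmem y hy)) s3 (hgnn 2 _ (by norm_num))
  have s1 := step (fun y hy => hgd 1 y (hmem y hy)) s2 (hgnn 1 _ (by norm_num))
  have s0 := step (fun y hy => hgd 0 y (hmem y hy)) s1 (hgnn 0 _ (by norm_num))
  have h0 := s0 (-1 / 2) ⟨le_rfl, by norm_num⟩
  have hG0 : g 0 (-1 / 2) = G (-1 / 2) := by rw [hg]; simp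
  rw [hG0] at h0
  have hGv := G_value
  norm_num at h0
  have hc72 : c ≤ 72 := by linarith
  -- the functional equation
  have hfe : G =ᶠ[𝓝 (-1 / 2 : ℝ)] (fun x => G (x + 1)) + kc AA BB C1 C2 0 := by
    filter_upwards [Ioi_mem_nhds (show (-1 : ℝ) < -1 / 2 by norm_num)] with x hx
    exact func_eq hx
  have h4 : iteratedDeriv 4 G (-1 / 2) = iteratedDeriv 4 G (1 / 2) + kc AA BB C1 C2 4 (-1 / 2) := by
    have hkc := iteratedDeriv_chain (U := Ioi (-1 : ℝ)) isOpen_Ioi (kc AA BB C1 C2) 4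
      (fun k hk x hx => kc_deriv (by linarith [C1_bounds.1]) (by linarith [C2_bounds.1]) k hk x hx)
      (-1 / 2) (by simp; norm_num)
    have hsh : iteratedDeriv 4 (fun x => G (x + 1)) (-1 / 2) = iteratedDeriv 4 G (1 / 2) := by
      rw [iteratedDeriv_comp_add_const]
      norm_num
    have hfe' : (fun x => G x - G (x + 1)) =ᶠ[𝓝 (-1 / 2 : ℝ)] kc AA BB C1 C2 0 := by
      filter_upwards [Ioi_mem_nhds (show (-1 : ℝ) < -1 / 2 by norm_num)] with x hx
      have := func_eq hx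
      linarith
    have hGc : ContDiffAt ℝ 4 G (-1 / 2) :=
      ((contDiffOn_G.contDiffAt (Ioi_mem_nhds (by norm_num))).of_le (WithTop.coe_le_coe.mpr le_top))
    have hGc' : ContDiffAt ℝ 4 (fun x => G (x + 1)) (-1 / 2) := by
      have h5 : ContDiffAt ℝ 4 G (-1 / 2 + 1) :=
        ((contDiffOn_G.contDiffAt (Ioi_mem_nhds (by norm_num))).of_le (WithTop.coe_le_coe.mpr le_top))
      exact h5.comp (-1 / 2 : ℝ) (by fun_prop : ContDiffAt ℝ 4 (fun x : ℝ => x + 1) (-1 / 2))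
    have h6 := hfe'.iteratedDeriv_eq 4
    rw [hkc, iteratedDeriv_fun_sub hGc hGc', hsh] at h6
    linarith
  have h5 := hcon 4 (-1 / 2) (by norm_num)
  have h6 := kc_value
  have h7 : c = iteratedDeriv 4 G (1 / 2) := by rw [hc, hg]; norm_num
  rw [h4] at h5
  norm_num at h5
  linarith

end Pool.Agent.Results.MP_d2a7e5_an.NotCompletelyMonotone
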